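import Pool.Agent.H6.Ev

set_option autoImplicit false

namespace Pool.Agent.Results.MP_cdfd58_co.Ratio

open SimpleGraph Finset Pool.Agent.H6.Bit Pool.Agent.H6.Ev

/-- dominating set -/
def Dom {V : Type} (G : SimpleGraph V) (D : Finset V) : Prop := ∀ v, v ∈ D ∨ ∃ u ∈ D, G.Adj u v

/-- eternal dominating family in the eviction game, with sets of size `k` -/
def EvFam {V : Type} [DecidableEq V] (G : SimpleGraph V) (k : ℕ) (F : Finset (Finset V)) : Prop :=
  F.Nonempty ∧ ∀ D ∈ F, D.card = k ∧ Dom G D ∧ ∀ v ∈ D, (∀ w, G.Adj v w → w ∈ D) ∨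
    ∃ w, G.Adj v w ∧ w ∉ D ∧ (insert w D).erase v ∈ F

/-- the eviction number -/
noncomputable def evic {V : Type} [DecidableEq V] (G : SimpleGraph V) : ℕ :=
  sInf {k | ∃ F, EvFam G k F}

def G : SimpleGraph (Fin 14) where
  Adj u v := tb (nb u) v = true
  symm := ⟨by decide +kernel⟩
  loopless := ⟨by decide +kernel⟩

instance : DecidableRel G.Adj := fun u v => inferInstanceAs (Decidable (tb (nb u) v = true))

lemma nbl : ∀ v < 14, nb v < 2 ^ 14 := by decide +kernel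

lemma meet {a v : ℕ} (hv : v < 14) (h : Nat.beq (Nat.land a (nb v)) 0 = false) :
    ∃ w : Fin 14, w ∈ dec 14 a ∧ G.Adj ⟨v, hv⟩ w := by
  obtain ⟨w, hw⟩ := Nat.exists_testBit_of_ne_zero (x := a &&& nb v) (Nat.ne_of_beq_eq_false h)
  rw [Nat.testBit_and, Bool.and_eq_true] at hw
  have : w < 14 := by
    by_contra c
    have := Nat.testBit_lt_two_pow ((nbl v hv).trans_le (Nat.pow_le_pow_right (by omega) (not_lt.1 c)))
    simp [this] at hw
  exact ⟨⟨w, this⟩, mem_dec.2 hw.1, (tb_eq _ _).trans hw.2⟩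

lemma alpha : G.indepNum = 5 := by
  refine le_antisymm ?_ (IsIndepSet.card_le_indepNum (t := {0, 1, 2, 3, 9}) (G := G) fun a ha b hb _ =>
    (by decide +kernel : ∀ a ∈ ({0, 1, 2, 3, 9} : Finset (Fin 14)), ∀ b ∈ ({0, 1, 2, 3, 9} : Finset (Fin 14)),
      ¬ G.Adj a b) a ha b hb)
  obtain ⟨J, hJ, hc⟩ := G.exists_isNIndepSet_indepNum
  obtain ⟨a, ha, rfl⟩ := dec_surj J
  have := all2_spec chk a ha
  simp only [ok, Bool.and_eq_true, Bool.or_eq_true] at this
  rcases this.1 with h | h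
  · rw [← hc, ← pc_eq]; exact Nat.le_of_ble_eq_true h
  obtain ⟨v, hv, h⟩ := anyB_spec h
  rw [Bool.and_eq_true, Bool.not_eq_true', tb_eq] at h
  obtain ⟨w, w1, w2⟩ := meet hv h.2
  exact absurd w2 (hJ (mem_dec.2 h.1) w1 w2.ne)

lemma lose (k : ℕ) (F : Finset (Finset (Fin 14))) (h : EvFam G k F) (hk : k < 7) (n : ℕ) :
    ∀ a < 2 ^ 14, rk a = n → dec 14 a ∉ F := by
  induction n using Nat.strong_induction_on with
  | _ n ih =>
  intro a ha hn hF
  obtain ⟨c, d, m⟩ := h.2 _ hF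
  have := all2_spec chk a ha
  simp only [ok, Bool.and_eq_true, Bool.or_eq_true, Bool.not_eq_true', tb_eq] at this
  rcases this.2 with k | ⟨l, k⟩
  · have := Nat.le_of_ble_eq_true k.2
    rw [pc_eq] at this
    omega
  have l : av a < 14 := Nat.lt_succ_of_le (Nat.le_of_ble_eq_true l)
  rcases k with k | ⟨⟨k1, k2⟩, k3⟩
  · rcases d ⟨_, l⟩ with d | ⟨u, u1, u2⟩
    · simp [mem_dec, k.1] at d
    · have e : (a &&& nb (av a)).testBit u = true := by
        rw [Nat.testBit_and, mem_dec.1 u1, ← tb_eq]; exact u2.symm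
      have z : a &&& nb (av a) = 0 := Nat.eq_of_beq_eq_true k.2
      simp [z] at e
  have hv : (⟨_, l⟩ : Fin 14) ∈ dec 14 a := mem_dec.2 k1
  rcases m _ hv with m | ⟨w, w1, w2, w3⟩
  · obtain ⟨w, hw, k2⟩ := anyB_spec k2
    rw [Bool.and_eq_true, Bool.not_eq_true', ← tb_eq] at k2
    have := mem_dec.1 (m ⟨w, hw⟩ k2.1)
    simp [k2.2] at this
  · have := allB_spec k3 w w.2
    have w1 : (nb (av a)).testBit w = true := (tb_eq _ _).symm.trans w1
    have w2' : a.testBit w = false := by simpa [mem_dec] using w2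
    simp only [w1, w2', Bool.not_true, Bool.or_self, Bool.false_or, Nat.blt_eq] at this
    rw [← dec_move hv w2] at w3
    exact ih _ (hn ▸ this) _ (fl_lt (fl_lt ha l) w.2) rfl w3

def m : Fin 14 → Fin 14 := ![11, 6, 13, 4, 3, 12, 1, 9, 10, 7, 8, 0, 5, 2]

lemma win : EvFam G 7 (univ.filter fun D => D.card = 7 ∧ ∀ v, v ∈ D ↔ m v ∉ D) := by
  have a : ∀ v, G.Adj v (m v) ∧ m (m v) = v := by decide +kernel
  refine ⟨⟨{0, 1, 2, 3, 5, 7, 8}, by decide +kernel⟩, fun D hD => ?_⟩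
  obtain ⟨-, c, h⟩ := mem_filter.1 hD
  refine ⟨c, fun v => ?_, fun v hv => .inr ⟨m v, (a v).1, (h v).1 hv, mem_filter.2 ⟨mem_univ _, ?_, fun t => ?_⟩⟩⟩
  · by_cases k : v ∈ D
    · exact .inl k
    · exact .inr ⟨m v, by_contra fun q => k ((h v).2 q), (a v).1.symm⟩
  · rw [card_erase_of_mem (mem_insert_of_mem hv), card_insert_of_notMem ((h v).1 hv), c]
  have n := (a v).1.ne
  have i : ∀ x y, m x = m y ↔ x = y := by decide +kernel
  have j : m t = v ↔ t = m v := ⟨fun e => by rw [← e, (a t).2], fun e => by rw [e, (a v).2]⟩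
  simp only [mem_erase, mem_insert, ne_eq, i, j, h t]
  have := (h v).1 hv
  by_cases k : t = v
  · subst k; simp [n]
  by_cases k' : t = m v
  · simp [k', n.symm]
  simp [k, k']

theorem result : ∃ G : SimpleGraph (Fin 14),
    G.indepNum = 5 ∧ evic G = 7 ∧ 4 * G.indepNum < 3 * evic G := by
  have e : evic G = 7 := by
    refine le_antisymm (Nat.sInf_le ⟨_, win⟩) (le_csInf ⟨7, _, win⟩ ?_)
    rintro k ⟨F, h⟩
    by_contra c
    obtain ⟨D, hD⟩ := h.1
    obtain ⟨a, ha, rfl⟩ := dec_surj D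
    exact lose k F h (not_le.1 c) _ a ha rfl hD
  exact ⟨G, alpha, e, by rw [alpha, e]; omega⟩

end Pool.Agent.Results.MP_cdfd58_co.Ratio
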